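import Mathlib

/-!
Every propagating programmed grammar has an equivalent propagating programmed grammar in one-ND
rule normal form. The first symbol of the sentential form is replaced by a fixed nonterminal `A0`
(the left-hand side of the only nondeterministic rule), the last symbol by a nonterminal which
contains the first symbol, the last symbol and the label.
-/

namespace Pool.Agent.Results.MP_67c3d0_lc.OneRuleNormalForm

open Relation

/-- A programmed grammar (without appearance checking) with terminals in `T`: there is one rule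
`lhs r → rhs r` with success field `succ r` for each label `r`. -/
structure Grammar (T : Type) where
  /-- the nonterminals -/
  N : Type
  /-- the labels -/
  Lab : Type
  finN : Finite N
  finLab : Finite Lab
  /-- the start symbol -/
  S : N
  /-- left-hand sides -/
  lhs : Lab → N
  /-- right-hand sides -/
  rhs : Lab → List (N ⊕ T)
  /-- success fields -/
  succ : Lab → Finset Lab

namespace Grammar

variable {T : Type} (G : Grammar T)

/-- One step `(u, r) ⇒ (v, q)`. -/
def Step (c d : List (G.N ⊕ T) × G.Lab) : Prop :=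
  ∃ u v, c.1 = u ++ Sum.inl (G.lhs c.2) :: v ∧ d.1 = u ++ (G.rhs c.2 ++ v) ∧ d.2 ∈ G.succ c.2

/-- The generated language. -/
def Lang : Set (List T) :=
  {w | ∃ p q, ReflTransGen G.Step ([Sum.inl G.S], p) (w.map Sum.inr, q)}

/-- No right-hand side is empty. -/
def Propagating : Prop := ∀ r, G.rhs r ≠ []

/-- One-ND rule normal form: at most one rule has at least two elements in its success field. -/
def OneND : Prop := ∀ r s, 2 ≤ (G.succ r).card → 2 ≤ (G.succ s).card → r = s

end Grammar

variable {T : Type}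

/-- The new nonterminals. -/
inductive N' (G : Grammar T) : Type
  | st
  | A0
  | comp (X Y : G.N ⊕ T) (q : G.Lab)
  | old (A : G.N)

/-- The new labels. -/
inductive L' (G : Grammar T) : Type
  | r0
  | a1 (X Y : G.N ⊕ T) (q q' : G.Lab)
  | a2 (q : G.Lab)
  | b (X : G.N ⊕ T) (q q' : G.Lab)
  | c1 (Y : G.N ⊕ T) (q q' : G.Lab)
  | c2 (q : G.Lab)
  | f1 (a b : T) (q : G.Lab)
  | f2 (a : T)
  | i1 (a : T)
  | i2 (q q' : G.Lab)

/-- code of the new nonterminals -/
def codeN (G : Grammar T) : N' G → Option (Option (((G.N ⊕ T) × (G.N ⊕ T) × G.Lab) ⊕ G.N))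
  | .st => none
  | .A0 => some none
  | .comp X Y q => some (some (Sum.inl (X, Y, q)))
  | .old A => some (some (Sum.inr A))

/-- code of the new labels -/
def codeL (G : Grammar T) : L' G → Option ((Fin 9 × (Option (G.N ⊕ T) × Option (G.N ⊕ T)) ×
    (Option G.Lab × Option G.Lab)))
  | .r0 => none
  | .a1 X Y q q' => some (0, (some X, some Y), (some q, some q'))
  | .a2 q => some (1, (none, none), (some q, none))
  | .b X q q' => some (2, (some X, none), (some q, some q'))
  | .c1 Y q q' => some (3, (some Y, none), (some q, some q'))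
  | .c2 q => some (4, (none, none), (some q, none))
  | .f1 a b q => some (5, (some (Sum.inr a), some (Sum.inr b)), (some q, none))
  | .f2 a => some (6, (some (Sum.inr a), none), (none, none))
  | .i1 a => some (7, (some (Sum.inr a), none), (none, none))
  | .i2 q q' => some (8, (none, none), (some q, some q'))

instance [Finite T] (G : Grammar T) : Finite (N' G) := by
  have := G.finN
  have := G.finLab
  refine Finite.of_injective (codeN G) ?_
  intro x y h
  cases x <;> cases y <;> simp_all [codeN]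

instance [Finite T] (G : Grammar T) : Finite (L' G) := by
  have := G.finN
  have := G.finLab
  refine Finite.of_injective (codeL G) ?_
  intro x y h
  cases x <;> cases y <;> simp_all [codeL]

/-- old symbols as new symbols -/
def emb (G : Grammar T) : G.N ⊕ T → N' G ⊕ T
  | Sum.inl A => Sum.inl (.old A)
  | Sum.inr a => Sum.inr a

/-- the label `q` can be reached with its left-hand side as the sentential form -/
def Reach1 (G : Grammar T) (q : G.Lab) : Prop :=
  ∃ p, ReflTransGen G.Step ([Sum.inl G.S], p) ([Sum.inl (G.lhs q)], q)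

/-- the pair can be reached -/
def Rch (G : Grammar T) (F : List (G.N ⊕ T)) (q : G.Lab) : Prop :=
  ∃ p, ReflTransGen G.Step ([Sum.inl G.S], p) (F, q)

/-- the first symbol of the right-hand side -/
def hd (G : Grammar T) (q : G.Lab) : G.N ⊕ T := (G.rhs q).headD (Sum.inl G.S)

/-- the last symbol of the right-hand side -/
def lst (G : Grammar T) (q : G.Lab) : G.N ⊕ T := (G.rhs q).getLastD (Sum.inl G.S)

/-- valid successors of the nondeterministic rule -/
def valid (G : Grammar T) : L' G → Prop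
  | .a1 _ _ q q' => q' ∈ G.succ q
  | .b _ q q' => q' ∈ G.succ q
  | .c1 _ q q' => q' ∈ G.succ q
  | .f1 _ _ _ => True
  | _ => False

open Classical in
/-- The new grammar. -/
noncomputable def new [Finite T] (G : Grammar T) : Grammar T where
  N := N' G
  Lab := L' G
  finN := inferInstance
  finLab := inferInstance
  S := .st
  lhs := fun l => match l with
    | .r0 => .A0
    | .a1 X Y q _ => .comp X Y q
    | .a2 q => .old (G.lhs q)
    | .b X q _ => .comp X (Sum.inl (G.lhs q)) q
    | .c1 Y q _ => .comp (Sum.inl (G.lhs q)) Y q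
    | .c2 _ => .A0
    | .f1 a b q => .comp (Sum.inr a) (Sum.inr b) q
    | .f2 _ => .A0
    | .i1 _ => .st
    | .i2 _ _ => .st
  rhs := fun l => match l with
    | .r0 => [Sum.inl .A0]
    | .a1 X Y _ q' => [Sum.inl (.comp X Y q')]
    | .a2 q => (G.rhs q).map (emb G)
    | .b X q q' => (G.rhs q).dropLast.map (emb G) ++ [Sum.inl (.comp X (lst G q) q')]
    | .c1 Y q q' => [Sum.inl (.comp (hd G q) Y q')]
    | .c2 q => Sum.inl .A0 :: (G.rhs q).tail.map (emb G)
    | .f1 _ b _ => [Sum.inr b]
    | .f2 a => [Sum.inr a]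
    | .i1 a => [Sum.inr a]
    | .i2 q q' => Sum.inl .A0 :: ((G.rhs q).tail.dropLast.map (emb G) ++
        [Sum.inl (.comp (hd G q) (lst G q) q')])
  succ := fun l => match l with
    | .r0 => (Set.toFinite {l : L' G | valid G l}).toFinset
    | .a1 _ _ q _ => {.a2 q}
    | .a2 _ => {.r0}
    | .b _ _ _ => {.r0}
    | .c1 _ q _ => {.c2 q}
    | .c2 _ => {.r0}
    | .f1 a _ _ => {.f2 a}
    | .f2 _ => {.r0}
    | .i1 a => if [a] ∈ G.Lang then {.r0} else ∅
    | .i2 q q' => if Reach1 G q ∧ 2 ≤ (G.rhs q).length ∧ q' ∈ G.succ q then {.r0} else ∅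

/-- the code of a sentential form -/
def enc (G : Grammar T) (X : G.N ⊕ T) (u : List (G.N ⊕ T)) (Y : G.N ⊕ T) (q : G.Lab) :
    List (N' G ⊕ T) :=
  Sum.inl .A0 :: (u.map (emb G) ++ [Sum.inl (.comp X Y q)])

lemma dec {α : Type*} {x y a : α} {m s t : List α} (h : x :: (m ++ [y]) = s ++ a :: t) :
    (s = [] ∧ a = x ∧ t = m ++ [y]) ∨
    (∃ s' t', s = x :: s' ∧ m = s' ++ a :: t' ∧ t = t' ++ [y]) ∨
    (s = x :: m ∧ a = y ∧ t = []) := by
  rcases s with _ | ⟨x', s'⟩
  · simp only [List.nil_append, List.cons.injEq] at h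
    exact Or.inl ⟨rfl, h.1.symm, h.2.symm⟩
  · right
    simp only [List.cons_append, List.cons.injEq] at h
    obtain ⟨rfl, h⟩ := h
    rcases List.eq_nil_or_concat t with rfl | ⟨t', z, rfl⟩
    · right
      have h2 := List.append_inj' h rfl
      simp only [List.cons.injEq, and_true] at h2
      exact ⟨by rw [h2.1], h2.2.symm, rfl⟩
    · left
      have h2 : m ++ [y] = (s' ++ a :: t') ++ [z] := by
        rw [h]; simp
      have h3 := List.append_inj' h2 rfl
      simp only [List.cons.injEq, and_true] at h3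
      exact ⟨s', t', rfl, h3.1, by simp [h3.2]⟩

lemma rhs_hd {G : Grammar T} {q : G.Lab} (h : G.rhs q ≠ []) :
    G.rhs q = hd G q :: (G.rhs q).tail := by
  unfold hd
  rcases hr : G.rhs q with _ | ⟨a, l⟩
  · exact absurd hr h
  · rfl

lemma rhs_lst {G : Grammar T} {q : G.Lab} (h : G.rhs q ≠ []) :
    G.rhs q = (G.rhs q).dropLast ++ [lst G q] := by
  unfold lst
  have h1 := List.dropLast_append_getLast h
  rw [List.getLastD_eq_getLast?, List.getLast?_eq_some_getLast h]
  exact h1.symm

lemma rhs_two {G : Grammar T} {q : G.Lab} (h : 2 ≤ (G.rhs q).length) :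
    G.rhs q = hd G q :: ((G.rhs q).tail.dropLast ++ [lst G q]) := by
  unfold hd lst
  rcases hr : G.rhs q with _ | ⟨a, _ | ⟨b, l⟩⟩
  · rw [hr] at h; simp at h
  · rw [hr] at h; simp at h
  · have h1 : (b :: l) ≠ [] := by simp
    have h2 := List.dropLast_append_getLast h1
    simp only [List.headD_cons, List.tail_cons]
    rw [List.getLastD_eq_getLast?, List.getLast?_eq_some_getLast (by simp), Option.getD_some,
      List.getLast_cons h1, h2]

lemma Rch.step {G : Grammar T} {F s t : List (G.N ⊕ T)} {q q' : G.Lab} (h : Rch G F q)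
    (e : F = s ++ Sum.inl (G.lhs q) :: t) (hq : q' ∈ G.succ q) :
    Rch G (s ++ (G.rhs q ++ t)) q' := by
  obtain ⟨p, hp⟩ := h
  exact ⟨p, hp.tail ⟨s, t, e, rfl, hq⟩⟩

/-- The invariant. -/
def Inv (G : Grammar T) (F : List (N' G ⊕ T)) : L' G → Prop
  | .r0 => (∃ X u Y q, F = enc G X u Y q ∧ Rch G (X :: (u ++ [Y])) q) ∨
      ∃ K : List (G.N ⊕ T), F = K.map (emb G) ∧ ∀ w : List T, K = w.map Sum.inr → w ∈ G.Lang
  | .a2 q => ∃ X u Y q', F = enc G X u Y q' ∧ Rch G (X :: (u ++ [Y])) q ∧ q' ∈ G.succ q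
  | .c2 q => ∃ u Y q', F = enc G (hd G q) u Y q' ∧ Rch G (Sum.inl (G.lhs q) :: (u ++ [Y])) q ∧
      q' ∈ G.succ q
  | .f2 a => ∃ u b q, F = Sum.inl .A0 :: (u.map (emb G) ++ [Sum.inr b]) ∧
      Rch G (Sum.inr a :: (u ++ [Sum.inr b])) q
  | .i1 _ => False
  | .i2 _ _ => False
  | l => valid G l ∧ ∃ X u Y q, F = enc G X u Y q ∧ Rch G (X :: (u ++ [Y])) q

lemma emb_ne_A0 {G : Grammar T} {u : List (G.N ⊕ T)} {s' t' : List (N' G ⊕ T)}
    (h : u.map (emb G) = s' ++ Sum.inl .A0 :: t') : False := by
  have h1 : (Sum.inl .A0 : N' G ⊕ T) ∈ u.map (emb G) := by rw [h]; simp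
  obtain ⟨x, _, hx⟩ := List.mem_map.1 h1
  rcases x with x | x <;> simp [emb] at hx

lemma emb_ne_comp {G : Grammar T} {u : List (G.N ⊕ T)} {s' t' : List (N' G ⊕ T)} {X Y q}
    (h : u.map (emb G) = s' ++ Sum.inl (.comp X Y q) :: t') : False := by
  have h1 : (Sum.inl (.comp X Y q) : N' G ⊕ T) ∈ u.map (emb G) := by rw [h]; simp
  obtain ⟨x, _, hx⟩ := List.mem_map.1 h1
  rcases x with x | x <;> simp [emb] at hx

lemma emb_old {G : Grammar T} {u : List (G.N ⊕ T)} {s' t' : List (N' G ⊕ T)} {A}
    (h : u.map (emb G) = s' ++ Sum.inl (.old A) :: t') :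
    ∃ s1 t1, u = s1 ++ Sum.inl A :: t1 ∧ s' = s1.map (emb G) ∧ t' = t1.map (emb G) := by
  obtain ⟨s1, u2, rfl, rfl, h2⟩ := List.map_eq_append_iff.1 h
  obtain ⟨x, t1, rfl, hx, rfl⟩ := List.map_eq_cons_iff.1 h2
  rcases x with x | x
  · simp only [emb, Sum.inl.injEq, N'.old.injEq] at hx
    exact ⟨s1, t1, by rw [hx], rfl, rfl⟩
  · simp [emb] at hx

lemma start_dec {G : Grammar T} {s t : List (N' G ⊕ T)} {a : N' G}
    (h : [Sum.inl .st] = s ++ Sum.inl a :: t) : s = [] ∧ a = .st ∧ t = [] := by
  rcases s with _ | ⟨x, s⟩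
  · simp only [List.nil_append, List.cons.injEq, Sum.inl.injEq] at h
    exact ⟨rfl, h.1.symm, h.2.symm⟩
  · simp at h

lemma inv_of_valid {G : Grammar T} {F : List (N' G ⊕ T)} {l : L' G} (hv : valid G l)
    (h : ∃ X u Y q, F = enc G X u Y q ∧ Rch G (X :: (u ++ [Y])) q) : Inv G F l := by
  cases l <;> first | exact ⟨hv, h⟩ | exact hv.elim

open Classical in
theorem inv_step [Finite T] {G : Grammar T} (hG : G.Propagating) {F F' : List (N' G ⊕ T)}
    {l l' : L' G} (h : F = [Sum.inl .st] ∨ Inv G F l) (hs : (new G).Step (F, l) (F', l')) :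
    Inv G F' l' := by
  obtain ⟨s, t, h1, h2, h3⟩ : ∃ s t : List (N' G ⊕ T),
      F = s ++ (Sum.inl ((new G).lhs l) : N' G ⊕ T) :: t ∧
      F' = s ++ ((show List (N' G ⊕ T) from (new G).rhs l) ++ t) ∧ l' ∈ (new G).succ l := hs
  cases l with
  | r0 =>
    change F = s ++ Sum.inl N'.A0 :: t at h1
    change F' = s ++ ([Sum.inl N'.A0] ++ t) at h2
    have hv : valid G l' := by
      have : l' ∈ (Set.toFinite {l : L' G | valid G l}).toFinset := h3
      simpa using this
    rcases h with rfl | ⟨X, u, Y, q, rfl, hR⟩ | ⟨K, rfl, hK⟩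
    · exact absurd (start_dec h1).2.1 (by simp)
    · rcases dec h1 with ⟨rfl, _, rfl⟩ | ⟨s', t', _, h4, _⟩ | ⟨_, h4, _⟩
      · exact inv_of_valid hv ⟨X, u, Y, q, h2, hR⟩
      · exact (emb_ne_A0 h4).elim
      · simp at h4
    · exact (emb_ne_A0 h1).elim
  | a1 X Y q q' =>
    change F = s ++ Sum.inl (N'.comp X Y q) :: t at h1
    change F' = s ++ ([Sum.inl (N'.comp X Y q')] ++ t) at h2
    have h3' : l' = .a2 q := by
      have : l' ∈ ({L'.a2 q} : Finset (L' G)) := h3
      simpa using this
    subst h3'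
    rcases h with rfl | ⟨hv, X0, u, Y0, q0, rfl, hR⟩
    · exact absurd (start_dec h1).2.1 (by simp)
    · rcases dec h1 with ⟨_, h4, _⟩ | ⟨s', t', _, h4, _⟩ | ⟨rfl, h4, rfl⟩
      · simp at h4
      · exact (emb_ne_comp h4).elim
      · simp only [Sum.inl.injEq, N'.comp.injEq] at h4
        obtain ⟨rfl, rfl, rfl⟩ := h4
        exact ⟨X, u, Y, q', by rw [h2]; simp [enc], hR, hv⟩
  | a2 q =>
    change F = s ++ Sum.inl (N'.old (G.lhs q)) :: t at h1
    change F' = s ++ ((G.rhs q).map (emb G) ++ t) at h2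
    have h3' : l' = .r0 := by
      have : l' ∈ ({L'.r0} : Finset (L' G)) := h3
      simpa using this
    subst h3'
    rcases h with rfl | ⟨X, u, Y, q', rfl, hR, hq⟩
    · exact absurd (start_dec h1).2.1 (by simp)
    · rcases dec h1 with ⟨_, h4, _⟩ | ⟨s', t', rfl, h4, rfl⟩ | ⟨_, h4, _⟩
      · simp at h4
      · obtain ⟨s1, t1, rfl, rfl, rfl⟩ := emb_old h4
        refine Or.inl ⟨X, s1 ++ (G.rhs q ++ t1), Y, q', by rw [h2]; simp [enc], ?_⟩
        have := hR.step (s := X :: s1) (t := t1 ++ [Y]) (by simp) hq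
        simpa using this
      · simp at h4
  | b X q q' =>
    change F = s ++ Sum.inl (N'.comp X (Sum.inl (G.lhs q)) q) :: t at h1
    change F' = s ++ (((G.rhs q).dropLast.map (emb G) ++ [Sum.inl (.comp X (lst G q) q')]) ++ t)
      at h2
    have h3' : l' = .r0 := by
      have : l' ∈ ({L'.r0} : Finset (L' G)) := h3
      simpa using this
    subst h3'
    rcases h with rfl | ⟨hv, X0, u, Y0, q0, rfl, hR⟩
    · exact absurd (start_dec h1).2.1 (by simp)
    · rcases dec h1 with ⟨_, h4, _⟩ | ⟨s', t', _, h4, _⟩ | ⟨rfl, h4, rfl⟩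
      · simp at h4
      · exact (emb_ne_comp h4).elim
      · simp only [Sum.inl.injEq, N'.comp.injEq] at h4
        obtain ⟨rfl, rfl, rfl⟩ := h4
        refine Or.inl ⟨X, u ++ (G.rhs q).dropLast, lst G q, q', by rw [h2]; simp [enc], ?_⟩
        have := hR.step (s := X :: u) (t := []) (by simp) hv
        rw [rhs_lst (hG q)] at this
        simpa using this
  | c1 Y q q' =>
    change F = s ++ Sum.inl (N'.comp (Sum.inl (G.lhs q)) Y q) :: t at h1
    change F' = s ++ ([Sum.inl (N'.comp (hd G q) Y q')] ++ t) at h2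
    have h3' : l' = .c2 q := by
      have : l' ∈ ({L'.c2 q} : Finset (L' G)) := h3
      simpa using this
    subst h3'
    rcases h with rfl | ⟨hv, X0, u, Y0, q0, rfl, hR⟩
    · exact absurd (start_dec h1).2.1 (by simp)
    · rcases dec h1 with ⟨_, h4, _⟩ | ⟨s', t', _, h4, _⟩ | ⟨rfl, h4, rfl⟩
      · simp at h4
      · exact (emb_ne_comp h4).elim
      · simp only [Sum.inl.injEq, N'.comp.injEq] at h4
        obtain ⟨rfl, rfl, rfl⟩ := h4
        exact ⟨u, Y, q', by rw [h2]; simp [enc], hR, hv⟩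
  | c2 q =>
    change F = s ++ Sum.inl N'.A0 :: t at h1
    change F' = s ++ ((Sum.inl N'.A0 :: (G.rhs q).tail.map (emb G)) ++ t) at h2
    have h3' : l' = .r0 := by
      have : l' ∈ ({L'.r0} : Finset (L' G)) := h3
      simpa using this
    subst h3'
    rcases h with rfl | ⟨u, Y, q', rfl, hR, hq⟩
    · exact absurd (start_dec h1).2.1 (by simp)
    · rcases dec h1 with ⟨rfl, _, rfl⟩ | ⟨s', t', _, h4, _⟩ | ⟨_, h4, _⟩
      · refine Or.inl ⟨hd G q, (G.rhs q).tail ++ u, Y, q', by rw [h2]; simp [enc], ?_⟩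
        have := hR.step (s := []) (t := u ++ [Y]) (by simp) hq
        rw [rhs_hd (hG q)] at this
        simpa using this
      · exact (emb_ne_A0 h4).elim
      · simp at h4
  | f1 a b q =>
    change F = s ++ Sum.inl (N'.comp (Sum.inr a) (Sum.inr b) q) :: t at h1
    change F' = s ++ ([Sum.inr b] ++ t) at h2
    have h3' : l' = .f2 a := by
      have : l' ∈ ({L'.f2 a} : Finset (L' G)) := h3
      simpa using this
    subst h3'
    rcases h with rfl | ⟨hv, X0, u, Y0, q0, rfl, hR⟩
    · exact absurd (start_dec h1).2.1 (by simp)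
    · rcases dec h1 with ⟨_, h4, _⟩ | ⟨s', t', _, h4, _⟩ | ⟨rfl, h4, rfl⟩
      · simp at h4
      · exact (emb_ne_comp h4).elim
      · simp only [Sum.inl.injEq, N'.comp.injEq] at h4
        obtain ⟨rfl, rfl, rfl⟩ := h4
        exact ⟨u, b, q, by rw [h2]; simp, hR⟩
  | f2 a =>
    change F = s ++ Sum.inl N'.A0 :: t at h1
    change F' = s ++ ([Sum.inr a] ++ t) at h2
    have h3' : l' = .r0 := by
      have : l' ∈ ({L'.r0} : Finset (L' G)) := h3
      simpa using this
    subst h3'
    rcases h with rfl | ⟨u, b, q, rfl, hR⟩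
    · exact absurd (start_dec h1).2.1 (by simp)
    · rcases dec h1 with ⟨rfl, _, rfl⟩ | ⟨s', t', _, h4, _⟩ | ⟨_, h4, _⟩
      · refine Or.inr ⟨Sum.inr a :: (u ++ [Sum.inr b]), by rw [h2]; simp [emb], ?_⟩
        intro w hw
        rw [hw] at hR
        obtain ⟨p, hp⟩ := hR
        exact ⟨p, q, hp⟩
      · exact (emb_ne_A0 h4).elim
      · simp at h4
  | i1 a =>
    change F = s ++ Sum.inl N'.st :: t at h1
    change F' = s ++ ([Sum.inr a] ++ t) at h2
    rcases h with rfl | h
    · obtain ⟨rfl, _, rfl⟩ := start_dec h1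
      by_cases ha : [a] ∈ G.Lang
      · have h3' : l' = .r0 := by
          have : l' ∈ (if [a] ∈ G.Lang then ({L'.r0} : Finset (L' G)) else ∅) := h3
          rw [if_pos ha] at this
          simpa using this
        subst h3'
        refine Or.inr ⟨[Sum.inr a], by rw [h2]; simp [emb], ?_⟩
        intro w hw
        rcases w with _ | ⟨x, _ | ⟨y, w⟩⟩
        · simp at hw
        · simp only [List.map_cons, List.map_nil, List.cons.injEq, Sum.inr.injEq, and_true] at hw
          rw [← hw]; exact ha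
        · simp at hw
      · exfalso
        have : l' ∈ (if [a] ∈ G.Lang then ({L'.r0} : Finset (L' G)) else ∅) := h3
        rw [if_neg ha] at this
        simp at this
    · exact h.elim
  | i2 q q' =>
    change F = s ++ Sum.inl N'.st :: t at h1
    change F' = s ++ ((Sum.inl .A0 :: ((G.rhs q).tail.dropLast.map (emb G) ++
        [Sum.inl (.comp (hd G q) (lst G q) q')])) ++ t) at h2
    rcases h with rfl | h
    · obtain ⟨rfl, _, rfl⟩ := start_dec h1
      by_cases ha : Reach1 G q ∧ 2 ≤ (G.rhs q).length ∧ q' ∈ G.succ q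
      · have h3' : l' = .r0 := by
          have : l' ∈ (if Reach1 G q ∧ 2 ≤ (G.rhs q).length ∧ q' ∈ G.succ q then
            ({L'.r0} : Finset (L' G)) else ∅) := h3
          rw [if_pos ha] at this
          simpa using this
        subst h3'
        refine Or.inl ⟨hd G q, (G.rhs q).tail.dropLast, lst G q, q', by rw [h2]; simp [enc], ?_⟩
        have hr : Rch G [Sum.inl (G.lhs q)] q := ha.1
        have := hr.step (s := []) (t := []) (by simp) ha.2.2
        rw [rhs_two ha.2.1] at this
        simpa using this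
      · exfalso
        have : l' ∈ (if Reach1 G q ∧ 2 ≤ (G.rhs q).length ∧ q' ∈ G.succ q then
            ({L'.r0} : Finset (L' G)) else ∅) := h3
        rw [if_neg ha] at this
        simp at this
    · exact h.elim

lemma mem_r0 [Finite T] {G : Grammar T} {l : L' G} (h : valid G l) :
    l ∈ (new G).succ .r0 := by
  have : l ∈ (Set.toFinite {l : L' G | valid G l}).toFinset := by simpa using h
  exact this

/-- the nondeterministic rule -/
lemma step_r0 [Finite T] {G : Grammar T} (X Y : G.N ⊕ T) (u : List (G.N ⊕ T)) (q : G.Lab)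
    {l : L' G} (h : valid G l) : (new G).Step (enc G X u Y q, .r0) (enc G X u Y q, l) :=
  ⟨[], _, rfl, rfl, mem_r0 h⟩

lemma mkstep [Finite T] {G : Grammar T} (l l' : L' G) (s t F F' : List (N' G ⊕ T)) (a : N' G)
    (r : List (N' G ⊕ T)) (ha : (new G).lhs l = a) (hr : (new G).rhs l = r)
    (h1 : F = s ++ Sum.inl a :: t) (h2 : F' = s ++ (r ++ t)) (h3 : l' ∈ (new G).succ l) :
    (new G).Step (F, l) (F', l') := by
  subst ha hr
  exact ⟨s, t, h1, h2, h3⟩

lemma length_le {G : Grammar T} (hG : G.Propagating) {q : G.Lab} (h : ¬ 2 ≤ (G.rhs q).length) :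
    ∃ z, G.rhs q = [z] := by
  rcases hr : G.rhs q with _ | ⟨a, _ | ⟨b, r⟩⟩
  · exact absurd hr (hG q)
  · exact ⟨a, rfl⟩
  · rw [hr] at h; simp at h

open Classical in
theorem sim [Finite T] {G : Grammar T} (hG : G.Propagating) (p : G.Lab)
    (c : List (G.N ⊕ T) × G.Lab) (h : ReflTransGen G.Step ([Sum.inl G.S], p) c) :
    (∃ z, c.1 = [z]) ∨ ∃ X u Y, c.1 = X :: (u ++ [Y]) ∧
      ∃ l : L' G, ReflTransGen (new G).Step ([Sum.inl .st], l) (enc G X u Y c.2, .r0) := by
  induction h with
  | refl => exact Or.inl ⟨_, rfl⟩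
  | @tail b c hab hbc ih =>
    obtain ⟨F, q⟩ := b
    obtain ⟨F', q'⟩ := c
    obtain ⟨s, t, e1, e2, hq⟩ := hbc
    simp only at e1 e2 hq ih ⊢
    subst e2
    rcases ih with ⟨z, hz⟩ | ⟨X, u, Y, hF, l, hl⟩
    · rw [e1] at hz
      have hs : s = [] := by
        rcases s with _ | ⟨a, s⟩
        · rfl
        · simp at hz
      subst hs
      have ht : t = [] := by
        rcases t with _ | ⟨a, t⟩
        · rfl
        · simp at hz
      subst ht
      by_cases h2 : 2 ≤ (G.rhs q).length
      · right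
        refine ⟨hd G q, (G.rhs q).tail.dropLast, lst G q, ?_, .i2 q q', ?_⟩
        · rw [List.nil_append, List.append_nil]; exact rhs_two h2
        · refine ReflTransGen.single (mkstep (.i2 q q') .r0 [] [] _ _ _
            (Sum.inl .A0 :: ((G.rhs q).tail.dropLast.map (emb G) ++
              [Sum.inl (.comp (hd G q) (lst G q) q')])) rfl rfl rfl ?_ ?_)
          · simp [enc]
          · have hr : Reach1 G q := ⟨p, by rw [e1] at hab; exact hab⟩
            have : L'.r0 ∈ (if Reach1 G q ∧ 2 ≤ (G.rhs q).length ∧ q' ∈ G.succ q then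
              ({L'.r0} : Finset (L' G)) else ∅) := by
              rw [if_pos ⟨hr, h2, hq⟩]; simp
            exact this
      · left
        obtain ⟨z, hz⟩ := length_le hG h2
        exact ⟨z, by rw [hz]; rfl⟩
    · right
      rw [e1] at hF
      rcases dec hF.symm with ⟨rfl, h4, rfl⟩ | ⟨s', t', rfl, rfl, rfl⟩ | ⟨rfl, h4, rfl⟩
      · refine ⟨hd G q, (G.rhs q).tail ++ u, Y, ?_, l, ?_⟩
        · rw [List.nil_append]
          nth_rewrite 1 [rhs_hd (hG q)]
          simp
        · refine ((hl.tail (step_r0 X Y u q (l := .c1 Y q q') hq)).tail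
            (c := (enc G (hd G q) u Y q', .c2 q)) ?_).tail ?_
          · refine mkstep (.c1 Y q q') _ (Sum.inl .A0 :: u.map (emb G)) [] _ _ _ _ rfl rfl ?_ ?_ ?_
            · rw [← h4]; rfl
            · rfl
            · change L'.c2 q ∈ ({L'.c2 q} : Finset (L' G)); simp
          · refine mkstep (.c2 q) _ [] _ _ _ _
              (Sum.inl .A0 :: (G.rhs q).tail.map (emb G)) rfl rfl rfl ?_ ?_
            · simp [enc]
            · change L'.r0 ∈ ({L'.r0} : Finset (L' G)); simp
      · refine ⟨X, s' ++ (G.rhs q ++ t'), Y, by simp, l, ?_⟩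
        refine ((hl.tail (step_r0 X Y _ q (l := .a1 X Y q q') hq)).tail
            (c := (enc G X (s' ++ Sum.inl (G.lhs q) :: t') Y q', .a2 q)) ?_).tail ?_
        · refine mkstep (.a1 X Y q q') _
            (Sum.inl .A0 :: (s' ++ Sum.inl (G.lhs q) :: t').map (emb G)) [] _ _ _ _ rfl rfl
            rfl rfl ?_
          change L'.a2 q ∈ ({L'.a2 q} : Finset (L' G)); simp
        · refine mkstep (.a2 q) _ (Sum.inl .A0 :: s'.map (emb G))
            (t'.map (emb G) ++ [Sum.inl (.comp X Y q')]) _ _ (.old (G.lhs q))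
            ((G.rhs q).map (emb G)) rfl rfl ?_ ?_ ?_
          · simp [enc, emb]
          · simp [enc]
          · change L'.r0 ∈ ({L'.r0} : Finset (L' G)); simp
      · refine ⟨X, u ++ (G.rhs q).dropLast, lst G q, ?_, l, ?_⟩
        · nth_rewrite 1 [rhs_lst (hG q)]
          simp
        · refine (hl.tail (step_r0 X Y u q (l := .b X q q') hq)).tail ?_
          refine mkstep (.b X q q') _ (Sum.inl .A0 :: u.map (emb G)) [] _ _ _
            ((G.rhs q).dropLast.map (emb G) ++ [Sum.inl (.comp X (lst G q) q')]) rfl rfl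
            ?_ ?_ ?_
          · rw [← h4]; rfl
          · simp [enc]
          · change L'.r0 ∈ ({L'.r0} : Finset (L' G)); simp

lemma emb_terminal {G : Grammar T} {K : List (G.N ⊕ T)} {w : List T}
    (h : (w.map Sum.inr : List (N' G ⊕ T)) = K.map (emb G)) : K = w.map Sum.inr := by
  induction K generalizing w with
  | nil => simpa using h
  | cons x K ih =>
    rcases w with _ | ⟨a, w⟩
    · simp at h
    · simp only [List.map_cons, List.cons.injEq] at h
      rcases x with x | x
      · simp [emb] at h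
      · simp only [emb, Sum.inr.injEq] at h
        rw [ih h.2, ← h.1]; rfl

lemma no_start {G : Grammar T} {w : List T}
    (h : (w.map Sum.inr : List (N' G ⊕ T)) = [Sum.inl .st]) : False := by
  have : (Sum.inl .st : N' G ⊕ T) ∈ (w.map Sum.inr : List (N' G ⊕ T)) := by rw [h]; simp
  simp at this

lemma no_A0 {G : Grammar T} {w : List T} {t : List (N' G ⊕ T)}
    (h : (w.map Sum.inr : List (N' G ⊕ T)) = Sum.inl .A0 :: t) : False := by
  have : (Sum.inl .A0 : N' G ⊕ T) ∈ (w.map Sum.inr : List (N' G ⊕ T)) := by rw [h]; simp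
  simp at this

open Classical in
theorem lang_new [Finite T] {G : Grammar T} (hG : G.Propagating) : (new G).Lang = G.Lang := by
  apply Set.Subset.antisymm
  · rintro w ⟨p, q, hw⟩
    have key : ∀ c : List (N' G ⊕ T) × L' G,
        ReflTransGen (new G).Step ([Sum.inl .st], p) c → c.1 = [Sum.inl .st] ∨ Inv G c.1 c.2 := by
      intro c hc
      induction hc with
      | refl => exact Or.inl rfl
      | tail _ hbc ih => exact Or.inr (inv_step hG ih hbc)
    have h1 : (w.map Sum.inr : List (N' G ⊕ T)) = [Sum.inl .st] ∨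
        Inv G (w.map Sum.inr : List (N' G ⊕ T)) q := key (w.map Sum.inr, q) hw
    rcases h1 with h1 | h1
    · exact (no_start h1).elim
    · cases q with
      | r0 =>
        rcases h1 with ⟨X, u, Y, q, h2, _⟩ | ⟨K, h2, hK⟩
        · exact (no_A0 h2).elim
        · exact hK w (emb_terminal h2)
      | a1 X Y q q' => obtain ⟨_, X, u, Y, q, h2, _⟩ := h1; exact (no_A0 h2).elim
      | a2 q => obtain ⟨X, u, Y, q, h2, _⟩ := h1; exact (no_A0 h2).elim
      | b X q q' => obtain ⟨_, X, u, Y, q, h2, _⟩ := h1; exact (no_A0 h2).elim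
      | c1 Y q q' => obtain ⟨_, X, u, Y, q, h2, _⟩ := h1; exact (no_A0 h2).elim
      | c2 q => obtain ⟨u, Y, q, h2, _⟩ := h1; exact (no_A0 h2).elim
      | f1 a b q => obtain ⟨_, X, u, Y, q, h2, _⟩ := h1; exact (no_A0 h2).elim
      | f2 a => obtain ⟨u, b, q, h2, _⟩ := h1; exact (no_A0 h2).elim
      | i1 a => exact h1.elim
      | i2 q q' => exact h1.elim
  · rintro w ⟨p, q, hw⟩
    rcases sim hG p _ hw with ⟨z, hz⟩ | ⟨X, u, Y, hF, l, hl⟩
    · simp only at hz
      rcases w with _ | ⟨a, _ | ⟨b, w⟩⟩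
      · simp at hz
      · refine ⟨.i1 a, .r0, ReflTransGen.single
          (mkstep (.i1 a) _ [] [] _ _ _ _ rfl rfl rfl rfl ?_)⟩
        have : L'.r0 ∈ (if [a] ∈ G.Lang then ({L'.r0} : Finset (L' G)) else ∅) := by
          rw [if_pos ⟨p, q, hw⟩]; simp
        exact this
      · simp at hz
    · simp only at hF
      obtain ⟨a, w1, rfl, rfl, hF2⟩ : ∃ a w1, w = a :: w1 ∧ Sum.inr a = X ∧
          (w1.map Sum.inr : List (G.N ⊕ T)) = u ++ [Y] := by
        obtain ⟨a, w1, h1, h2, h3⟩ := List.map_eq_cons_iff.1 hF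
        exact ⟨a, w1, h1, h2, h3⟩
      obtain ⟨w2, w3, rfl, rfl, hw3⟩ := List.map_eq_append_iff.1 hF2
      obtain ⟨b, w4, rfl, rfl, hw4⟩ := List.map_eq_cons_iff.1 hw3
      have hw4' : w4 = [] := by simpa using hw4
      subst hw4'
      refine ⟨l, .r0, ((hl.tail (step_r0 _ _ _ q (l := .f1 a b q) trivial)).tail
        (c := ((Sum.inl .A0 :: ((w2.map Sum.inr).map (emb G) ++ [Sum.inr b]) :
          List (N' G ⊕ T)), .f2 a)) ?_).tail ?_⟩
      · refine mkstep (.f1 a b q) _ (Sum.inl .A0 :: (w2.map Sum.inr).map (emb G)) [] _ _ _ _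
          rfl rfl rfl rfl ?_
        change L'.f2 a ∈ ({L'.f2 a} : Finset (L' G)); simp
      · refine mkstep (.f2 a) _ [] _ _ _ _ [Sum.inr a] rfl rfl rfl ?_ ?_
        · change (Sum.inr a :: (w2 ++ [b]).map Sum.inr : List (N' G ⊕ T)) = _
          simp [emb]
        · change L'.r0 ∈ ({L'.r0} : Finset (L' G)); simp

/-- Every propagating programmed grammar has an equivalent propagating programmed grammar in
one-ND rule normal form. -/
theorem result (T : Type) [Finite T] (G : Grammar T) (hG : G.Propagating) :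
    ∃ G' : Grammar T, G'.Propagating ∧ G'.OneND ∧ G'.Lang = G.Lang := by
  classical
  refine ⟨new G, ?_, ?_, lang_new hG⟩
  · intro r
    cases r with
    | a2 q =>
      intro h
      have h' : (G.rhs q).map (emb G) = [] := h
      exact hG q (by simpa using h')
    | b X q q' =>
      intro h
      have h' : (G.rhs q).dropLast.map (emb G) ++
        [(Sum.inl (.comp X (lst G q) q') : N' G ⊕ T)] = [] := h
      simp at h'
    | _ => intro h; exact absurd h (List.cons_ne_nil _ _)
  · have hall : ∀ r : L' G, 2 ≤ ((new G).succ r).card → r = .r0 := by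
      intro r hr
      cases r with
      | r0 => rfl
      | i1 a =>
        exfalso
        have h' : 2 ≤ (if [a] ∈ G.Lang then ({L'.r0} : Finset (L' G)) else ∅).card := hr
        split_ifs at h' <;> simp at h'
      | i2 q q' =>
        exfalso
        have h' : 2 ≤ (if Reach1 G q ∧ 2 ≤ (G.rhs q).length ∧ q' ∈ G.succ q then
            ({L'.r0} : Finset (L' G)) else ∅).card := hr
        split_ifs at h' <;> simp at h'
      | _ =>
        exfalso
        have h' : 2 ≤ 1 := hr.trans (le_of_eq (Finset.card_singleton _))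
        omega
    intro r s hr hs
    rw [hall r hr, hall s hs]

end Pool.Agent.Results.MP_67c3d0_lc.OneRuleNormalForm
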