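import Mathlib

/-!
The hierarchy of the families of languages of propagating programmed grammars given by the overall
nondeterminism is strict.
-/

namespace Pool.Agent.Results.MP_67c3d0_lc.StrictHierarchy

open Relation

/-- A programmed grammar (without appearance checking) with terminals in `T`: there is one rule
`lhs r → rhs r` with success field `succ r` for each label `r`. -/
structure Grammar (T : Type) where
  /-- the nonterminals -/
  N : Type
  /-- the labels -/
  Lab : Type
  finN : Finite N
  finLab : Fintype Lab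
  /-- the start symbol -/
  S : N
  /-- left-hand sides -/
  lhs : Lab → N
  /-- right-hand sides -/
  rhs : Lab → List (N ⊕ T)
  /-- success fields -/
  succ : Lab → Finset Lab

namespace Grammar

variable {T : Type} (G : Grammar T)

/-- One step `(u, r) ⇒ (v, q)`. -/
def Step (c d : List (G.N ⊕ T) × G.Lab) : Prop :=
  ∃ u v, c.1 = u ++ Sum.inl (G.lhs c.2) :: v ∧ d.1 = u ++ (G.rhs c.2 ++ v) ∧ d.2 ∈ G.succ c.2

/-- The generated language. -/
def Lang : Set (List T) :=
  {w | ∃ p q, ReflTransGen G.Step ([Sum.inl G.S], p) (w.map Sum.inr, q)}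

/-- No right-hand side is empty. -/
def Propagating : Prop := ∀ r, G.rhs r ≠ []

/-- The overall nondeterminism: the sum of the sizes of the success fields with at least two
elements. -/
def ond : ℕ :=
  letI := G.finLab
  ∑ r : G.Lab, if 2 ≤ (G.succ r).card then (G.succ r).card else 0

/-- Application of the rule with label `r`. -/
def Apply (r : G.Lab) (F F' : List (G.N ⊕ T)) : Prop :=
  ∃ u v, F = u ++ Sum.inl (G.lhs r) :: v ∧ F' = u ++ (G.rhs r ++ v)

/-- A derivation with the list `l` of applied rules. -/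
inductive Path : G.Lab → List (G.N ⊕ T) → List G.Lab → List (G.N ⊕ T) → G.Lab → Prop
  | nil (p F) : Path p F [] F p
  | cons {p F F1 p1 l F' q} (h : G.Apply p F F1) (h1 : p1 ∈ G.succ p) (h2 : Path p1 F1 l F' q) :
      Path p F (p :: l) F' q

end Grammar

/-- The family of the languages (over finite sets of natural numbers as letters) which are generated
by propagating programmed grammars with overall nondeterminism at most `n`. -/
def OND (n : ℕ) : Set (Set (List ℕ)) :=
  {L | ∃ G : Grammar ℕ, G.Propagating ∧ G.ond ≤ n ∧ G.Lang = L}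

variable {T : Type} {G : Grammar T}

lemma exists_path {c d : List (G.N ⊕ T) × G.Lab} (h : ReflTransGen G.Step c d) :
    ∃ l, G.Path c.2 c.1 l d.1 d.2 := by
  induction h using ReflTransGen.head_induction_on with
  | refl => exact ⟨[], .nil _ _⟩
  | head hab _ ih =>
    obtain ⟨l, hl⟩ := ih
    obtain ⟨u, v, h1, h2, h3⟩ := hab
    exact ⟨_, .cons ⟨u, v, h1, h2⟩ h3 hl⟩

lemma path_head {p q : G.Lab} {F F' : List (G.N ⊕ T)} {l : List G.Lab} {a : G.Lab}
    (h : G.Path p F (a :: l) F' q) : a = p := by
  cases h; rfl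

lemma path_nil {p q : G.Lab} {F F' : List (G.N ⊕ T)} (h : G.Path p F [] F' q) : F' = F := by
  cases h; rfl

lemma path_append {l1 l2 : List G.Lab} {p q : G.Lab} {F F' : List (G.N ⊕ T)}
    (h : G.Path p F (l1 ++ l2) F' q) : ∃ F1 p1, G.Path p F l1 F1 p1 ∧ G.Path p1 F1 l2 F' q := by
  induction l1 generalizing p F with
  | nil => exact ⟨F, p, .nil _ _, h⟩
  | cons a l1 ih =>
    cases h with
    | cons h1 h2 h3 =>
      obtain ⟨F1, p1, h4, h5⟩ := ih h3
      exact ⟨F1, p1, .cons h1 h2 h4, h5⟩

/-- adjacent labels in a derivation -/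
lemma path_adj {l1 l2 : List G.Lab} {a b p q : G.Lab} {F F' : List (G.N ⊕ T)}
    (h : G.Path p F (l1 ++ a :: b :: l2) F' q) : b ∈ G.succ a := by
  obtain ⟨F1, p1, _, h2⟩ := path_append h
  have h3 := path_head h2
  subst h3
  cases h2 with
  | cons h4 h5 h6 =>
    have h7 := path_head h6
    subst h7
    exact h5

/-- the numbers of symbols are determined by the list of rules -/
lemma path_count {l : List G.Lab} {p q : G.Lab} {F F' : List (G.N ⊕ T)} (h : G.Path p F l F' q) :
    (F' : Multiset (G.N ⊕ T)) + ((l.map fun r => (Sum.inl (G.lhs r) : G.N ⊕ T)) : Multiset _) =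
      (F : Multiset (G.N ⊕ T)) + ((l.flatMap G.rhs : List (G.N ⊕ T)) : Multiset _) := by
  induction h with
  | nil p F => simp
  | @cons p F F1 p1 l F' q h h1 h2 ih =>
    obtain ⟨u, v, rfl, rfl⟩ := h
    simp only [List.map_cons, List.flatMap_cons, ← Multiset.coe_add, ← Multiset.cons_coe] at ih ⊢
    rw [Multiset.add_cons, ih, Multiset.add_cons]
    simp only [Multiset.cons_add]
    congr 1
    abel

lemma prefix_or {α : Type*} {l l' : List α} (hh : l.head? = l'.head?)
    (hadj : ∀ l1 l2 l1' l2' a b b', l = l1 ++ a :: b :: l2 → l' = l1' ++ a :: b' :: l2' → b = b') :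
    l <+: l' ∨ l' <+: l := by
  induction l generalizing l' with
  | nil => exact Or.inl (List.nil_prefix)
  | cons a t ih =>
    rcases l' with _ | ⟨a', t'⟩
    · exact Or.inr (List.nil_prefix)
    · simp only [List.head?_cons, Option.some.injEq] at hh
      subst hh
      rcases t with _ | ⟨b, s⟩
      · left; exact ⟨t', rfl⟩
      · rcases t' with _ | ⟨b', s'⟩
        · right; exact ⟨b :: s, rfl⟩
        · have hb : b = b' := hadj [] s [] s' a b b' rfl rfl
          subst hb
          rcases ih (l' := b :: s') rfl (fun l1 l2 l1' l2' x y y' h1 h2 =>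
            hadj (a :: l1) l2 (a :: l1') l2' x y y' (by rw [h1]; rfl) (by rw [h2]; rfl)) with h | h
          · left; exact (List.cons_prefix_cons).2 ⟨rfl, h⟩
          · right; exact (List.cons_prefix_cons).2 ⟨rfl, h⟩

lemma last_rule (hG : G.Propagating) {l : List G.Lab} {z p q : G.Lab} {F F' : List (G.N ⊕ T)}
    {i : T} (h : G.Path p F (l ++ [z]) F' q) (hF : ∀ x ∈ F', x = Sum.inr i) :
    Sum.inr i ∈ G.rhs z := by
  obtain ⟨F1, p1, _, h2⟩ := path_append h
  have h3 := path_head h2
  subst h3
  cases h2 with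
  | cons h4 h5 h6 =>
    cases h6
    obtain ⟨u, v, _, rfl⟩ := h4
    obtain ⟨x, hx⟩ := List.exists_mem_of_ne_nil _ (hG z)
    have := hF x (by simp [hx])
    rw [← this]; exact hx

lemma persist {l : List G.Lab} {z p q : G.Lab} {F F' : List (G.N ⊕ T)} {i : T}
    (h : G.Path p F l F' q) (hz : z ∈ l) (hi : Sum.inr i ∈ G.rhs z) : Sum.inr i ∈ F' := by
  have h1 := path_count h
  have h2 : Sum.inr i ∈ (F : Multiset (G.N ⊕ T)) +
      ((l.flatMap G.rhs : List (G.N ⊕ T)) : Multiset _) := by
    rw [Multiset.mem_add]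
    right
    rw [Multiset.mem_coe, List.mem_flatMap]
    exact ⟨z, hz, hi⟩
  rw [← h1, Multiset.mem_add] at h2
  rcases h2 with h2 | h2
  · exact h2
  · rw [Multiset.mem_coe, List.mem_map] at h2
    obtain ⟨r, _, hr⟩ := h2
    exact absurd hr (by simp)

/-- The pair of labels is used in a derivation of a power of `i`, and it is a choice. -/
def Used (G : Grammar T) (i : T) (e : G.Lab × G.Lab) : Prop :=
  2 ≤ (G.succ e.1).card ∧ ∃ p l1 l2 k q,
    G.Path p [Sum.inl G.S] (l1 ++ e.1 :: e.2 :: l2) (List.replicate k (Sum.inr i)) q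

/-- The pair is the last choice in a derivation of a power of `i`. -/
def LastUsed (G : Grammar T) (i : T) (e : G.Lab × G.Lab) : Prop :=
  2 ≤ (G.succ e.1).card ∧ ∃ p l1 l2 k q,
    G.Path p [Sum.inl G.S] (l1 ++ e.1 :: e.2 :: l2) (List.replicate k (Sum.inr i)) q ∧
    ∀ m1 m2 a b, e.2 :: l2 = m1 ++ a :: b :: m2 → (G.succ a).card ≤ 1

lemma used_last (i : T) (n : ℕ) : ∀ r s : G.Lab, 2 ≤ (G.succ r).card → ∀ p l1 l2 k q,
    l2.length = n →
    G.Path p [Sum.inl G.S] (l1 ++ r :: s :: l2) (List.replicate k (Sum.inr i)) q →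
    ∃ e', LastUsed G i e' := by
  induction n using Nat.strong_induction_on with
  | _ n ih =>
    intro r s hr p l1 l2 k q hn hP
    by_cases h : ∀ m1 m2 a b, s :: l2 = m1 ++ a :: b :: m2 → (G.succ a).card ≤ 1
    · exact ⟨(r, s), hr, p, l1, l2, k, q, hP, h⟩
    · push Not at h
      obtain ⟨m1, m2, a, b, hm, hc⟩ := h
      have hlen := congrArg List.length hm
      simp only [List.length_cons, List.length_append] at hlen
      refine ih m2.length (by omega) a b hc p (l1 ++ r :: m1) m2 k q rfl ?_
      rw [hm] at hP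
      simpa using hP

lemma last_used_eq (hG : G.Propagating) {i j : T} {e : G.Lab × G.Lab} (h1 : LastUsed G i e)
    (h2 : Used G j e) : i = j := by
  obtain ⟨r, s⟩ := e
  obtain ⟨_, p, l1, l2, k, q, hP, hlast⟩ := h1
  obtain ⟨_, p', l1', l2', k', q', hP'⟩ := h2
  simp only at hP hP' hlast
  have e1 : l1 ++ r :: s :: l2 = (l1 ++ [r]) ++ s :: l2 := by simp
  have e2 : l1' ++ r :: s :: l2' = (l1' ++ [r]) ++ s :: l2' := by simp
  rw [e1] at hP
  rw [e2] at hP'
  obtain ⟨F1, p1, _, hQ⟩ := path_append hP
  obtain ⟨F1', p1', _, hQ'⟩ := path_append hP'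
  have key : s :: l2 <+: s :: l2' ∨ s :: l2' <+: s :: l2 := by
    refine prefix_or rfl fun m1 m2 m1' m2' a b b' ha hb => ?_
    have hc := hlast m1 m2 a b ha
    rw [ha] at hQ
    rw [hb] at hQ'
    exact Finset.card_le_one.1 hc b (path_adj hQ) b' (path_adj hQ')
  have hrep : ∀ (k : ℕ) (i : T) (x : G.N ⊕ T), x ∈ List.replicate k (Sum.inr i) → x = Sum.inr i :=
    fun k i x hx => List.eq_of_mem_replicate hx
  have hsplit : ∀ m : List G.Lab, ∃ m' z, s :: m = m' ++ [z] := fun m =>
    ⟨(s :: m).dropLast, (s :: m).getLast (by simp), (List.dropLast_append_getLast (by simp)).symm⟩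
  rcases key with h | h
  · obtain ⟨m', z, hm⟩ := hsplit l2
    have hz : z ∈ s :: l2' := h.subset (by rw [hm]; simp)
    rw [hm] at hQ
    have h3 := last_rule hG hQ (hrep k i)
    have h4 := hrep _ _ _ (persist hQ' hz h3)
    exact Sum.inr_injective h4
  · obtain ⟨m', z, hm⟩ := hsplit l2'
    have hz : z ∈ s :: l2 := h.subset (by rw [hm]; simp)
    rw [hm] at hQ'
    have h3 := last_rule hG hQ' (hrep k' j)
    have h4 := hrep _ _ _ (persist hQ hz h3)
    exact (Sum.inr_injective h4).symm

lemma not_subsingleton (i : T) (hi : ∀ k : ℕ, List.replicate (k + 1) i ∈ G.Lang)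
    (hU : ∀ e e', Used G i e → Used G i e' → e = e') : False := by
  have := G.finLab
  have hp : ∀ k : ℕ, ∃ p l q, G.Path p [Sum.inl G.S] l (List.replicate (k + 1) (Sum.inr i)) q := by
    intro k
    obtain ⟨p, q, h⟩ := hi k
    obtain ⟨l, hl⟩ := exists_path h
    rw [List.map_replicate] at hl
    exact ⟨p, l, q, hl⟩
  choose p l q hP using hp
  obtain ⟨k, k', hne, hkk⟩ := Finite.exists_ne_map_eq_of_infinite p
  have hhead : ∀ k, (l k).head? = some (p k) := by
    intro k
    have h := hP k
    rcases hl : l k with _ | ⟨a, t⟩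
    · rw [hl] at h
      have hF := path_nil h
      rw [List.replicate_succ] at hF
      simp at hF
    · rw [hl] at h
      rw [path_head h]; rfl
  have hmain : ∀ k k', p k = p k' → l k <+: l k' → k = k' := by
    rintro k k' hkk ⟨m, hm⟩
    have h1 := hP k
    have h2 := hP k'
    rw [← hm] at h2
    obtain ⟨F1, p1, h3, h4⟩ := path_append h2
    have hF : (F1 : Multiset (G.N ⊕ T)) = (List.replicate (k + 1) (Sum.inr i) : List (G.N ⊕ T)) := by
      have e1 := path_count h1
      have e2 := path_count h3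
      rw [← e2] at e1
      exact (add_right_cancel e1).symm
    rcases m with _ | ⟨a, m⟩
    · rw [← path_nil h4] at hF
      have := congrArg Multiset.card hF
      simp at this
      exact this.symm
    · exfalso
      have h5 := path_head h4
      subst h5
      cases h4 with
      | cons h6 _ _ =>
        obtain ⟨u, v, hu, _⟩ := h6
        have h7 : Sum.inl (G.lhs a) ∈ (F1 : Multiset (G.N ⊕ T)) := by
          rw [Multiset.mem_coe, hu]; simp
        rw [hF, Multiset.mem_coe] at h7
        exact absurd (List.eq_of_mem_replicate h7) (by simp)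
  have key : l k <+: l k' ∨ l k' <+: l k := by
    refine prefix_or (by rw [hhead, hhead, hkk]) fun m1 m2 m1' m2' a b b' ha hb => ?_
    have h1 := hP k
    have h2 := hP k'
    rw [ha] at h1
    rw [hb] at h2
    by_cases hc : 2 ≤ (G.succ a).card
    · have := hU (a, b) (a, b') ⟨hc, _, m1, m2, _, _, h1⟩ ⟨hc, _, m1', m2', _, _, h2⟩
      exact (Prod.ext_iff.1 this).2
    · exact Finset.card_le_one.1 (by omega) b (path_adj h1) b' (path_adj h2)
  rcases key with h | h
  · exact hne (hmain k k' hkk h)
  · exact hne (hmain k' k hkk.symm h).symm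

/-- The union of the languages `aᵢ⁺` for `i < n`. -/
def Lan (n : ℕ) : Set (List ℕ) := {w | ∃ i < n, ∃ k, w = List.replicate (k + 1) i}

theorem lower {n : ℕ} (hn : 1 ≤ n) {G : Grammar ℕ} (hG : G.Propagating) (hL : G.Lang = Lan n) :
    ¬ G.ond ≤ n := by
  classical
  intro hle
  let _ := G.finLab
  have hlang : ∀ i < n, ∀ k, List.replicate (k + 1) i ∈ G.Lang := by
    intro i hi k
    rw [hL]; exact ⟨i, hi, k, rfl⟩
  let B : Finset (Σ _ : G.Lab, G.Lab) :=
    (Finset.univ.filter fun r => 2 ≤ (G.succ r).card).sigma fun r => G.succ r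
  have hB : B.card = G.ond := by
    rw [Finset.card_sigma, Finset.sum_filter]
    rfl
  have hused : ∀ i e, Used G i e → (⟨e.1, e.2⟩ : Σ _ : G.Lab, G.Lab) ∈ B := by
    rintro i e ⟨h1, p, l1, l2, k, q, h2⟩
    rw [Finset.mem_sigma]
    exact ⟨by simpa using h1, path_adj h2⟩
  have hlu : ∀ i e, LastUsed G i e → Used G i e := by
    rintro i e ⟨h1, p, l1, l2, k, q, h2, _⟩
    exact ⟨h1, p, l1, l2, k, q, h2⟩
  have hex : ∀ i : Fin n, ∃ e, LastUsed G (i : ℕ) e := by
    intro i
    by_contra hc
    refine not_subsingleton (G := G) (i : ℕ) (hlang i i.2) fun e e' he _ => ?_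
    obtain ⟨h1, p, l1, l2, k, q, h2⟩ := he
    exact absurd (used_last (G := G) (i : ℕ) _ e.1 e.2 h1 p l1 l2 k q rfl h2) hc
  choose e he using hex
  let f : Fin n → {x // x ∈ B} := fun i => ⟨⟨(e i).1, (e i).2⟩, hused i _ (hlu _ _ (he i))⟩
  have hf : Function.Injective f := by
    intro i j hij
    have h1 : e i = e j := by
      have h2 := congrArg Subtype.val hij
      simp only [f, Sigma.mk.injEq, heq_eq_eq] at h2
      exact Prod.ext h2.1 h2.2
    have h2 := he i
    rw [h1] at h2
    exact Fin.ext (last_used_eq hG h2 (hlu _ _ (he j)))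
  have hcard : Fintype.card {x // x ∈ B} ≤ Fintype.card (Fin n) := by
    rw [Fintype.card_coe, hB, Fintype.card_fin]; exact hle
  have hbij : Function.Bijective f :=
    (Fintype.bijective_iff_injective_and_card f).2
      ⟨hf, le_antisymm (Fintype.card_le_of_injective f hf) hcard⟩
  let i0 : Fin n := ⟨0, hn⟩
  have huniq : ∀ e', Used G (0 : ℕ) e' → e' = e i0 := by
    intro e' he'
    obtain ⟨j, hj⟩ := hbij.2 ⟨⟨e'.1, e'.2⟩, hused _ _ he'⟩
    have h1 : e j = e' := by
      have h2 := congrArg Subtype.val hj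
      simp only [f, Sigma.mk.injEq, heq_eq_eq] at h2
      exact Prod.ext h2.1 h2.2
    have h2 := he j
    rw [h1] at h2
    have h3 : (j : ℕ) = 0 := last_used_eq hG h2 he'
    have h4 : j = i0 := Fin.ext h3
    rw [← h1, h4]
  exact not_subsingleton (G := G) (0 : ℕ) (hlang 0 (by omega)) fun e e' h h' =>
    (huniq e h).trans (huniq e' h').symm

/-- A grammar for `Lan n`. -/
def gr (n : ℕ) : Grammar ℕ where
  N := Unit
  Lab := Option (Fin n)
  finN := inferInstance
  finLab := inferInstance
  S := ()
  lhs := fun _ => ()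
  rhs := fun r => match r with
    | none => [Sum.inl (), Sum.inl ()]
    | some i => [Sum.inr (i : ℕ)]
  succ := fun r => match r with
    | none => Finset.univ
    | some i => {some i}

lemma ond_gr {n : ℕ} (hn : 1 ≤ n) : (gr n).ond = n + 1 := by
  have h1 : (gr n).ond = ∑ r : Option (Fin n),
      if 2 ≤ ((gr n).succ r).card then ((gr n).succ r).card else 0 := rfl
  rw [h1, Fintype.sum_option]
  have h2 : ((gr n).succ none).card = n + 1 := by
    have : ((gr n).succ none).card = (Finset.univ : Finset (Option (Fin n))).card := rfl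
    rw [this]; simp
  have h3 : ∀ i : Fin n, ((gr n).succ (some i)).card = 1 := fun i => Finset.card_singleton _
  simp only [h2, h3]
  simp
  omega

/-- the invariant -/
def Ok (n : ℕ) (F : List (Unit ⊕ ℕ)) : Option (Fin n) → Prop
  | none => F ≠ [] ∧ ∀ x ∈ F, x = Sum.inl ()
  | some i => F ≠ [] ∧ ∀ x ∈ F, x = Sum.inl () ∨ x = Sum.inr (i : ℕ)

lemma ok_step {n : ℕ} {F F' : List (Unit ⊕ ℕ)} {l l' : Option (Fin n)} (h : Ok n F l)
    (hs : (gr n).Step (F, l) (F', l')) : Ok n F' l' := by
  obtain ⟨u, v, h1, h2, h3⟩ : ∃ u v : List (Unit ⊕ ℕ), F = u ++ Sum.inl () :: v ∧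
    F' = u ++ ((show List (Unit ⊕ ℕ) from (gr n).rhs l) ++ v) ∧ l' ∈ (gr n).succ l := hs
  cases l with
  | none =>
    change F' = u ++ ([Sum.inl (), Sum.inl ()] ++ v) at h2
    subst h1 h2
    have h4 : ∀ x ∈ u ++ ([Sum.inl (), Sum.inl ()] ++ v), x = (Sum.inl () : Unit ⊕ ℕ) := by
      intro x hx
      have := h.2
      simp only [List.mem_append, List.mem_cons] at hx this
      rcases hx with hx | (hx | hx | hx) | hx
      · exact this x (Or.inl hx)
      · exact hx
      · exact hx
      · simp at hx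
      · exact this x (Or.inr (Or.inr hx))
    cases l' with
    | none => exact ⟨by simp, h4⟩
    | some i => exact ⟨by simp, fun x hx => Or.inl (h4 x hx)⟩
  | some i =>
    change F' = u ++ ([Sum.inr (i : ℕ)] ++ v) at h2
    have h3' : l' = some i := by
      have : l' ∈ ({some i} : Finset (Option (Fin n))) := h3
      simpa using this
    subst h1 h2 h3'
    refine ⟨by simp, fun x hx => ?_⟩
    have := h.2
    simp only [List.mem_append, List.mem_cons] at hx this
    rcases hx with hx | (hx | hx) | hx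
    · exact this x (Or.inl hx)
    · exact Or.inr hx
    · simp at hx
    · exact this x (Or.inr (Or.inr hx))

lemma fill {n : ℕ} (i : Fin n) (b : ℕ) : ∀ a : ℕ,
    ReflTransGen (gr n).Step
      ((List.replicate a (Sum.inr (i : ℕ)) ++ List.replicate b (Sum.inl ()) :
        List (Unit ⊕ ℕ)), some i)
      ((List.replicate (a + b) (Sum.inr (i : ℕ)) : List (Unit ⊕ ℕ)), some i) := by
  induction b with
  | zero => intro a; simp; exact ReflTransGen.refl
  | succ b ih =>
    intro a
    refine ReflTransGen.head (b := ((List.replicate (a + 1) (Sum.inr (i : ℕ)) ++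
      List.replicate b (Sum.inl ()) : List (Unit ⊕ ℕ)), some i)) ?_ ?_
    · refine ⟨List.replicate a (Sum.inr (i : ℕ)), List.replicate b (Sum.inl ()), ?_, ?_, ?_⟩
      · rw [List.replicate_succ (a := (Sum.inl () : Unit ⊕ ℕ))]; rfl
      · rw [List.replicate_succ']
        exact List.append_assoc _ _ _
      · exact Finset.mem_singleton_self _
    · have := ih (a + 1)
      rw [show a + (b + 1) = a + 1 + b by ring]
      exact this

lemma mem_none {n : ℕ} (l : Option (Fin n)) : l ∈ (gr n).succ none := by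
  have : l ∈ (Finset.univ : Finset (Option (Fin n))) := Finset.mem_univ l
  exact this

lemma grow {n : ℕ} (k : ℕ) : ReflTransGen (gr n).Step
    (([Sum.inl ()] : List (Unit ⊕ ℕ)), none)
    ((List.replicate (k + 1) (Sum.inl ()) : List (Unit ⊕ ℕ)), none) := by
  induction k with
  | zero => exact ReflTransGen.refl
  | succ k ih =>
    refine ih.tail ⟨[], List.replicate k (Sum.inl ()), ?_, ?_, ?_⟩
    · rw [List.replicate_succ]; rfl
    · rw [List.replicate_succ, List.replicate_succ]; rfl
    · exact mem_none _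

lemma lang_gr (n : ℕ) : (gr n).Lang = Lan n := by
  apply Set.Subset.antisymm
  · rintro w ⟨p, q, hw⟩
    have key : ∀ c : List (Unit ⊕ ℕ) × Option (Fin n),
        ReflTransGen (gr n).Step (([Sum.inl ()] : List (Unit ⊕ ℕ)), p) c → Ok n c.1 c.2 := by
      intro c hc
      induction hc with
      | refl =>
        cases p with
        | none => exact ⟨by simp, by simp⟩
        | some i => exact ⟨by simp, by simp⟩
      | tail _ hbc ih => exact ok_step ih hbc
    have h1 : Ok n (w.map Sum.inr : List (Unit ⊕ ℕ)) q := key (w.map Sum.inr, q) hw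
    cases q with
    | none =>
      exfalso
      obtain ⟨h2, h3⟩ := h1
      rcases w with _ | ⟨a, w⟩
      · exact h2 rfl
      · exact absurd (h3 (Sum.inr a) (by simp)) (by simp)
    | some i =>
      obtain ⟨h2, h3⟩ := h1
      have h4 : w = List.replicate w.length (i : ℕ) := by
        rw [List.eq_replicate_iff]
        refine ⟨rfl, fun b hb => ?_⟩
        have := h3 (Sum.inr b) (List.mem_map_of_mem hb)
        simpa using this
      have h5 : w ≠ [] := by
        rintro rfl
        exact h2 rfl
      refine ⟨i, i.2, w.length - 1, ?_⟩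
      have h6 : w.length - 1 + 1 = w.length := Nat.sub_add_cancel (List.length_pos_iff.2 h5)
      rw [h6]; exact h4
  · rintro w ⟨i, hi, k, rfl⟩
    rcases k with _ | k
    · refine ⟨some ⟨i, hi⟩, some ⟨i, hi⟩, ?_⟩
      have := fill (n := n) ⟨i, hi⟩ 1 0
      rw [List.map_replicate]
      exact this
    · refine ⟨none, some ⟨i, hi⟩, ?_⟩
      rw [List.map_replicate]
      have h1 := grow (n := n) k
      have h2 := fill (n := n) ⟨i, hi⟩ (k + 1 + 1) 0
      rw [Nat.zero_add, List.replicate_zero, List.nil_append] at h2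
      refine (h1.tail (c := ((List.replicate (k + 1 + 1) (Sum.inl ()) : List (Unit ⊕ ℕ)),
        some ⟨i, hi⟩)) ?_).trans h2
      refine ⟨[], List.replicate k (Sum.inl ()), ?_, ?_, ?_⟩
      · rw [List.replicate_succ]; rfl
      · rw [List.replicate_succ, List.replicate_succ]; rfl
      · exact mem_none _

/-- The hierarchy of the families `OND(P^{-ε}, n)` is strict. -/
theorem result : ∀ n : ℕ, 1 ≤ n → OND n ⊂ OND (n + 1) := by
  intro n hn
  refine ⟨?_, fun h => ?_⟩
  · rintro L ⟨G, h1, h2, h3⟩
    exact ⟨G, h1, h2.trans (Nat.le_succ n), h3⟩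
  · have h1 : Lan n ∈ OND (n + 1) := by
      refine ⟨gr n, ?_, (ond_gr hn).le, lang_gr n⟩
      intro r
      cases r with
      | none => exact List.cons_ne_nil _ _
      | some i => exact List.cons_ne_nil _ _
    obtain ⟨G, h2, h3, h4⟩ := h h1
    exact lower hn h2 h4 h3

end Pool.Agent.Results.MP_67c3d0_lc.StrictHierarchy
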